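import Pool.Agent.TH41.Univ

/-! The isomorphism game algebra of two graphs and the full group C*-algebra. -/

set_option autoImplicit false

open scoped ENNReal

namespace Pool.Agent.TH41.Game

open Univ

/-- The pair `g, g'` of vertices of `G` and the pair `h, h'` of vertices of `H` stand in the same
relation (equal, adjacent, or distinct and non-adjacent). -/
def SameRel {V W : Type} (G : SimpleGraph V) (H : SimpleGraph W) (g g' : V) (h h' : W) : Prop :=
  (g = g' ↔ h = h') ∧ (G.Adj g g' ↔ H.Adj h h')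

/-- The relations of the isomorphism game algebra. -/
def GameRel {V W : Type} [Fintype V] [Fintype W] (G : SimpleGraph V) (H : SimpleGraph W)
    (A : Type) [CStarAlgebra A] (p : V → W → A) : Prop :=
  (∀ g h, p g h * p g h = p g h ∧ star (p g h) = p g h) ∧
  (∀ g, ∑ h, p g h = 1) ∧ (∀ h, ∑ g, p g h = 1) ∧
  ∀ g g' h h', ¬ SameRel G H g g' h h' → p g h * p g' h' = 0

/-- The isomorphism game algebra: the universal unital C*-algebra of the relations. -/
def IsGameAlgebra {V W : Type} [Fintype V] [Fintype W] (G : SimpleGraph V) (H : SimpleGraph W)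
    (A : Type) [CStarAlgebra A] (p : V → W → A) : Prop :=
  GameRel G H A p ∧ ∀ (B : Type) [CStarAlgebra B] (q : V → W → B), GameRel G H B q →
    ∃! φ : A →⋆ₐ[ℂ] B, ∀ g h, φ (p g h) = q g h

/-- The full group C*-algebra. -/
def IsFullGroupAlgebra (Γ : Type) [Group Γ] (C : Type) [CStarAlgebra C] (u : Γ →* unitary C) :
    Prop :=
  ∀ (B : Type) [CStarAlgebra B] (v : Γ →* unitary B),
    ∃! φ : C →⋆ₐ[ℂ] B, ∀ g, φ (u g) = v g

noncomputable section

section game

variable {V W : Type} [Fintype V] [Fintype W] (G : SimpleGraph V) (H : SimpleGraph W)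

def RG (B : Type) [CStarAlgebra B] (y : V × W → B) : Prop :=
  GameRel G H B (fun g h => y (g, h))

lemma norm_proj {B : Type} [CStarAlgebra B] (p : B) (h1 : p * p = p) (h2 : star p = p) :
    ‖p‖ ≤ 1 := by
  have h3 : ‖p‖ * ‖p‖ = ‖p‖ := by
    rw [← CStarRing.norm_star_mul_self, h2, h1]
  by_contra hc
  push Not at hc
  have : ‖p‖ < ‖p‖ * ‖p‖ := by nlinarith
  linarith

lemma RG_bdd : Bdd (RG G H) := by
  intro B _ y hy x
  exact norm_proj _ (hy.1 x.1 x.2).1 (hy.1 x.1 x.2).2

lemma lp_sum {I : Type} {B : I → Type} [∀ i, CStarAlgebra (B i)] {T : Type} (s : Finset T)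
    (f : T → lp B ∞) (i : I) : (∑ t ∈ s, f t) i = ∑ t ∈ s, f t i := by
  classical
  induction s using Finset.induction_on with
  | empty => simp
  | insert a s ha ih =>
    rw [Finset.sum_insert ha, Finset.sum_insert ha, lp.coeFn_add, Pi.add_apply, ih]

lemma RG_prods : Prods (RG G H) := by
  intro I B _ _ y hy z hz
  refine ⟨?_, ?_, ?_, ?_⟩
  · intro g h
    constructor
    · ext i
      change z (g, h) i * z (g, h) i = z (g, h) i
      rw [hz]
      exact ((hy i).1 g h).1
    · ext i
      change star (z (g, h) i) = z (g, h) i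
      rw [hz]
      exact ((hy i).1 g h).2
  · intro g
    ext i
    rw [lp_sum]
    change _ = (1 : B i)
    simp only [hz]
    exact (hy i).2.1 g
  · intro h
    ext i
    rw [lp_sum]
    change _ = (1 : B i)
    simp only [hz]
    exact (hy i).2.2.1 h
  · intro g g' h h' hn
    ext i
    change z (g, h) i * z (g', h') i = 0
    rw [hz, hz]
    exact (hy i).2.2.2 g g' h h' hn

lemma RG_subs : Subs (RG G H) := by
  intro B C _ _ φ y hφ hy
  refine ⟨?_, ?_, ?_, ?_⟩
  · intro g h
    constructor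
    · apply hφ
      rw [map_mul]
      exact (hy.1 g h).1
    · apply hφ
      rw [map_star]
      exact (hy.1 g h).2
  · intro g
    apply hφ
    rw [map_sum, map_one]
    exact hy.2.1 g
  · intro h
    apply hφ
    rw [map_sum, map_one]
    exact hy.2.2.1 h
  · intro g g' h h' hn
    apply hφ
    rw [map_mul, map_zero]
    exact hy.2.2.2 g g' h h' hn

theorem exists_game : ∃ (A : Type) (_ : CStarAlgebra A) (p : V → W → A), IsGameAlgebra G H A p := by
  obtain ⟨h1, h2⟩ := univ_UA (RG_bdd G H) (RG_prods G H) (RG_subs G H)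
  refine ⟨UA (RG_bdd G H), inferInstance, fun g h => ug (RG_bdd G H) (g, h), h1, ?_⟩
  intro B _ q hq
  obtain ⟨φ, hφ, huniq⟩ := h2 B (fun x => q x.1 x.2) hq
  exact ⟨φ, fun g h => hφ (g, h), fun ψ hψ => huniq ψ (fun x => hψ x.1 x.2)⟩

end game

section grp

variable (Γ : Type) [Group Γ]

def RU (B : Type) [CStarAlgebra B] (y : Γ → B) : Prop :=
  y 1 = 1 ∧ (∀ a b, y (a * b) = y a * y b) ∧ ∀ a, star (y a) = y a⁻¹

lemma RU_unitary {B : Type} [CStarAlgebra B] {y : Γ → B} (hy : RU Γ B y) (a : Γ) :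
    y a ∈ unitary B := by
  rw [Unitary.mem_iff]
  rw [hy.2.2, ← hy.2.1, ← hy.2.1]
  simp [hy.1]

lemma RU_bdd : Bdd (RU Γ) := by
  intro B _ y hy x
  rcases subsingleton_or_nontrivial B with hB | hB
  · rw [Subsingleton.elim (y x) 0, norm_zero]
    exact zero_le_one
  · rw [CStarRing.norm_of_mem_unitary (RU_unitary Γ hy x)]

lemma RU_prods : Prods (RU Γ) := by
  intro I B _ _ y hy z hz
  refine ⟨?_, ?_, ?_⟩
  · ext i
    rw [hz]
    exact (hy i).1
  · intro a b
    ext i
    change z (a * b) i = z a i * z b i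
    rw [hz, hz, hz]
    exact (hy i).2.1 a b
  · intro a
    ext i
    change star (z a i) = z a⁻¹ i
    rw [hz, hz]
    exact (hy i).2.2 a

lemma RU_subs : Subs (RU Γ) := by
  intro B C _ _ φ y hφ hy
  refine ⟨?_, ?_, ?_⟩
  · apply hφ
    rw [map_one]
    exact hy.1
  · intro a b
    apply hφ
    rw [map_mul]
    exact hy.2.1 a b
  · intro a
    apply hφ
    rw [map_star]
    exact hy.2.2 a

/-- a homomorphism to the unitary group from the relations -/
def toHom {B : Type} [CStarAlgebra B] (y : Γ → B) (hy : RU Γ B y) : Γ →* unitary B where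
  toFun a := ⟨y a, RU_unitary Γ hy a⟩
  map_one' := Subtype.ext hy.1
  map_mul' a b := Subtype.ext (hy.2.1 a b)

lemma RU_of_hom {B : Type} [CStarAlgebra B] (v : Γ →* unitary B) : RU Γ B (fun a => (v a : B)) := by
  refine ⟨by simp, fun a b => by simp, fun a => ?_⟩
  change star (v a : B) = (v a⁻¹ : B)
  rw [map_inv]
  rfl

theorem exists_full : ∃ (C : Type) (_ : CStarAlgebra C) (u : Γ →* unitary C),
    IsFullGroupAlgebra Γ C u := by
  obtain ⟨h1, h2⟩ := univ_UA (RU_bdd Γ) (RU_prods Γ) (RU_subs Γ)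
  refine ⟨UA (RU_bdd Γ), inferInstance, toHom Γ _ h1, ?_⟩
  intro B _ v
  exact h2 B (fun a => (v a : B)) (RU_of_hom Γ v)

end grp

end

end Pool.Agent.TH41.Game
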