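import Pool.Agent.TH41.Game

/-! The Mermin-Peres magic square: two graphs which are quantum isomorphic but not isomorphic. -/

set_option autoImplicit false

namespace Pool.Agent.TH41.Mermin

open Univ Game
open scoped ComplexOrder

/-- vertices: the line `k` (rows `0, 1, 2`, columns `3, 4, 5`) and the first two values -/
abbrev VV : Type := Fin 6 × Fin 2 × Fin 2

/-- the right hand side -/
def rhs (s : Fin 2) (k : Fin 6) : Fin 2 := if k = 5 then s else 0

/-- the value of the assignment at position `j` of the line; the three values sum to `rhs` -/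
def val (s : Fin 2) (v : VV) (j : Fin 3) : Fin 2 :=
  if j = 0 then v.2.1 else if j = 1 then v.2.2 else v.2.1 + v.2.2 + rhs s v.1

def isRow (k : Fin 6) : Bool := decide (k.val < 3)

def idx (k : Fin 6) : Fin 3 := ⟨k.val % 3, Nat.mod_lt _ (by norm_num)⟩

/-- inconsistent assignments -/
def inc (s : Fin 2) (v w : VV) : Bool :=
  if v.1 = w.1 then decide (v.2 ≠ w.2)
  else if isRow v.1 ≠ isRow w.1 then decide (val s v (idx w.1) ≠ val s w (idx v.1)) else false

lemma inc_symm : ∀ s v w, inc s v w = inc s w v := by decide +kernel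

lemma inc_irrefl : ∀ s v, inc s v v = false := by decide +kernel

/-- the graph of the linear system with parameter `s` -/
def GG (s : Fin 2) : SimpleGraph VV where
  Adj v w := inc s v w = true
  symm := ⟨fun v w h => by rw [inc_symm]; exact h⟩
  loopless := ⟨fun v h => by rw [inc_irrefl] at h; exact absurd h (by decide)⟩

/-- the nine observables (times nothing), as integer matrices; `ob r c` -/
def ob (r c : Fin 3) : Matrix (Fin 4) (Fin 4) ℤ :=
  match r, c with
  | 0, 0 => !![0,0,1,0; 0,0,0,1; 1,0,0,0; 0,1,0,0]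
  | 0, 1 => !![0,1,0,0; 1,0,0,0; 0,0,0,1; 0,0,1,0]
  | 0, 2 => !![0,0,0,1; 0,0,1,0; 0,1,0,0; 1,0,0,0]
  | 1, 0 => !![1,0,0,0; 0,-1,0,0; 0,0,1,0; 0,0,0,-1]
  | 1, 1 => !![1,0,0,0; 0,1,0,0; 0,0,-1,0; 0,0,0,-1]
  | 1, 2 => !![1,0,0,0; 0,-1,0,0; 0,0,-1,0; 0,0,0,1]
  | 2, 0 => !![0,0,1,0; 0,0,0,-1; 1,0,0,0; 0,-1,0,0]
  | 2, 1 => !![0,1,0,0; 1,0,0,0; 0,0,0,-1; 0,0,-1,0]
  | 2, 2 => !![0,0,0,-1; 0,0,1,0; 0,1,0,0; -1,0,0,0]

def sgn (a : Fin 2) : ℤ := if a = 0 then 1 else -1

/-- the observable at position `j` of line `k` -/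
def obl (k : Fin 6) (j : Fin 3) : Matrix (Fin 4) (Fin 4) ℤ :=
  if isRow k then ob (idx k) j else ob j (idx k)

/-- four times the projection of the assignment `v` -/
def F (v : VV) : Matrix (Fin 4) (Fin 4) ℤ :=
  (1 + sgn v.2.1 • obl v.1 0) * (1 + sgn v.2.2 • obl v.1 1)

lemma F_sq : ∀ v, F v * F v = 4 • F v := by decide +kernel

lemma F_symm : ∀ v, (F v).transpose = F v := by decide +kernel

lemma F_sum : ∀ k, ∑ a : Fin 2 × Fin 2, F (k, a) = 4 • (1 : Matrix (Fin 4) (Fin 4) ℤ) := by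
  decide +kernel

lemma F_inc : ∀ v w, inc 1 v w = true → F v * F w = 0 := by decide +kernel

lemma key : ∀ (k l : Fin 6) (a a' b b' : Fin 2 × Fin 2),
    inc 1 (k, a + b) (l, a' + b') = false →
      (((k, a) = (l, a') ↔ (k, b) = (l, b')) ∧
        (inc 1 (k, a) (l, a') = true ↔ inc 0 (k, b) (l, b') = true)) := by decide +kernel

/-- the projections -/
noncomputable def E (v : VV) : CStarMatrix (Fin 4) (Fin 4) ℂ :=
  CStarMatrix.ofMatrixStarAlgEquiv ((1 / 4 : ℂ) • (Int.castRingHom ℂ).mapMatrix (F v))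

lemma E_mul (v w : VV) : E v * E w = CStarMatrix.ofMatrixStarAlgEquiv
    ((1 / 16 : ℂ) • (Int.castRingHom ℂ).mapMatrix (F v * F w)) := by
  unfold E
  rw [← map_mul, map_mul ((Int.castRingHom ℂ).mapMatrix), smul_mul_smul_comm]
  norm_num

lemma E_sq (v : VV) : E v * E v = E v := by
  rw [E_mul, F_sq]
  unfold E
  rw [map_nsmul, ← Nat.cast_smul_eq_nsmul ℂ, smul_smul]
  norm_num

lemma E_inc (v w : VV) (h : inc 1 v w = true) : E v * E w = 0 := by
  rw [E_mul, F_inc v w h, map_zero, smul_zero, map_zero]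

lemma E_star (v : VV) : star (E v) = E v := by
  unfold E
  rw [← map_star]
  congr 1
  ext i j
  have h := congrFun (congrFun (F_symm v) i) j
  rw [Matrix.transpose_apply] at h
  simp [Matrix.star_apply, h]

lemma E_sum (k : Fin 6) : ∑ a : Fin 2 × Fin 2, E (k, a) = 1 := by
  unfold E
  rw [← map_sum, ← Finset.smul_sum, ← map_sum, F_sum, map_nsmul, map_one,
    ← Nat.cast_smul_eq_nsmul ℂ, smul_smul]
  norm_num

/-- the quantum isomorphism -/
noncomputable def qq (v w : VV) : CStarMatrix (Fin 4) (Fin 4) ℂ :=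
  if v.1 = w.1 then E (v.1, v.2 + w.2) else 0

lemma sum_shift (k : Fin 6) (b : Fin 2 × Fin 2) :
    ∑ a : Fin 2 × Fin 2, E (k, b + a) = 1 := by
  rw [← E_sum k]
  exact Fintype.sum_equiv (Equiv.addLeft b) _ _ (fun _ => rfl)

lemma qq_rel : GameRel (GG 1) (GG 0) (CStarMatrix (Fin 4) (Fin 4) ℂ) qq := by
  refine ⟨?_, ?_, ?_, ?_⟩
  · intro v w
    unfold qq
    split_ifs
    · exact ⟨E_sq _, E_star _⟩
    · simp
  · rintro ⟨k, b⟩
    rw [Fintype.sum_prod_type, Finset.sum_eq_single k]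
    · simp only [qq, if_true]
      exact sum_shift k b
    · intro l _ hl
      apply Finset.sum_eq_zero
      intro a _
      simp only [qq]
      rw [if_neg (Ne.symm hl)]
    · simp
  · rintro ⟨k, b⟩
    rw [Fintype.sum_prod_type, Finset.sum_eq_single k]
    · simp only [qq, if_true]
      rw [← sum_shift k b]
      refine Finset.sum_congr rfl fun a _ => ?_
      rw [add_comm]
    · intro l _ hl
      apply Finset.sum_eq_zero
      intro a _
      simp only [qq]
      rw [if_neg hl]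
    · simp
  · rintro ⟨k, a⟩ ⟨l, a'⟩ ⟨k', b⟩ ⟨l', b'⟩ hn
    simp only [qq]
    split_ifs with h1 h2
    · subst h1 h2
      apply E_inc
      by_contra hc
      rw [Bool.not_eq_true] at hc
      exact hn (key k l a a' b b' hc)
    · rw [mul_zero]
    · rw [zero_mul]
    · rw [mul_zero]

lemma nosol : ∀ a0 a1 a2 a3 a4 a5 : Fin 2 × Fin 2,
    ¬ (inc 1 (0, a0) (3, a3) = false ∧ inc 1 (0, a0) (4, a4) = false ∧
      inc 1 (0, a0) (5, a5) = false ∧ inc 1 (1, a1) (3, a3) = false ∧
      inc 1 (1, a1) (4, a4) = false ∧ inc 1 (1, a1) (5, a5) = false ∧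
      inc 1 (2, a2) (3, a3) = false ∧ inc 1 (2, a2) (4, a4) = false ∧
      inc 1 (2, a2) (5, a5) = false) := by decide +kernel

lemma same_line : ∀ v w : VV, v.1 = w.1 → inc 1 v w = false → v = w := by decide +kernel

lemma zero_cons : ∀ k l : Fin 6, k ≠ l → inc 0 (k, 0) (l, 0) = false := by decide +kernel

/-- there are no characters -/
theorem no_char {A : Type} [CStarAlgebra A] (p : VV → VV → A) (hp : GameRel (GG 1) (GG 0) A p)
    (χ : A →⋆ₐ[ℂ] ℂ) : False := by
  have h1 : ∀ k : Fin 6, ∃ g : VV, χ (p g (k, 0)) ≠ 0 := by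
    intro k
    by_contra hc
    push Not at hc
    have h2 := congrArg χ (hp.2.2.1 (k, 0))
    rw [map_sum, map_one, Finset.sum_eq_zero (fun g _ => hc g)] at h2
    exact zero_ne_one h2
  choose g hg using h1
  have h2 : ∀ k l, SameRel (GG 1) (GG 0) (g k) (g l) (k, 0) (l, 0) := by
    intro k l
    by_contra hc
    have h3 := congrArg χ (hp.2.2.2 _ _ _ _ hc)
    rw [map_mul, map_zero] at h3
    exact mul_ne_zero (hg k) (hg l) h3
  have h3 : ∀ k l, inc 1 (g k) (g l) = false := by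
    intro k l
    by_cases hkl : k = l
    · rw [hkl]; exact inc_irrefl 1 _
    · by_contra hc
      rw [Bool.not_eq_false] at hc
      have h4 : inc 0 (k, 0) (l, 0) = true := (h2 k l).2.1 hc
      rw [zero_cons k l hkl] at h4
      exact absurd h4 (by decide)
  have h4 : Function.Injective fun k => (g k).1 := by
    intro k l hkl
    have h5 := same_line _ _ hkl (h3 k l)
    have h6 := (h2 k l).1.1 h5
    exact congrArg Prod.fst h6
  have h5 : Function.Surjective fun k => (g k).1 := Finite.injective_iff_surjective.1 h4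
  choose f hf using h5
  have h6 : ∀ l, g (f l) = (l, (g (f l)).2) := fun l => Prod.ext (hf l) rfl
  have h7 : ∀ l m, inc 1 (l, (g (f l)).2) (m, (g (f m)).2) = false := by
    intro l m
    rw [← h6 l, ← h6 m]
    exact h3 _ _
  exact nosol (g (f 0)).2 (g (f 1)).2 (g (f 2)).2 (g (f 3)).2 (g (f 4)).2 (g (f 5)).2
    ⟨h7 _ _, h7 _ _, h7 _ _, h7 _ _, h7 _ _, h7 _ _, h7 _ _, h7 _ _, h7 _ _⟩

/-- the game algebra is not zero -/
theorem nontrivial_of_univ {A : Type} [CStarAlgebra A] (p : VV → VV → A)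
    (hp : IsGameAlgebra (GG 1) (GG 0) A p) : Nontrivial A := by
  obtain ⟨φ, _, _⟩ := hp.2 _ qq qq_rel
  exact (φ : A →+* CStarMatrix (Fin 4) (Fin 4) ℂ).domain_nontrivial

end Pool.Agent.TH41.Mermin
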