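import Mathlib

/-! Existence of universal unital C*-algebras with bounded generators. -/

set_option autoImplicit false

open scoped ENNReal

namespace Pool.Agent.TH41.Univ

noncomputable section

/-- The `ℓ^∞`-product of nontrivial unital C*-algebras. -/
instance lpCStar {I : Type} {A : I → Type} [∀ i, Nontrivial (A i)] [∀ i, CStarAlgebra (A i)] :
    CStarAlgebra (lp A ∞) where
  norm_smul_le := norm_smul_le

/-- evaluation of noncommutative star polynomials -/
def ev {X B : Type} [CStarAlgebra B] (y : X → B) : FreeAlgebra ℂ (X ⊕ X) →ₐ[ℂ] B :=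
  FreeAlgebra.lift ℂ (Sum.elim y (fun x => star (y x)))

/-- the star algebra generated by the family `y` -/
def Alg {X B : Type} [CStarAlgebra B] (y : X → B) : StarSubalgebra ℂ B :=
  StarAlgebra.adjoin ℂ (Set.range y)

/-- the C*-algebra generated by the family `y` -/
def CAlg {X B : Type} [CStarAlgebra B] (y : X → B) : StarSubalgebra ℂ B :=
  (Alg y).topologicalClosure

lemma mem_Alg {X B : Type} [CStarAlgebra B] (y : X → B) (x : X) : y x ∈ Alg y :=
  StarAlgebra.subset_adjoin ℂ _ ⟨x, rfl⟩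

lemma mem_CAlg {X B : Type} [CStarAlgebra B] (y : X → B) (x : X) : y x ∈ CAlg y :=
  StarSubalgebra.le_topologicalClosure _ (mem_Alg y x)

lemma mem_Alg_iff {X B : Type} [CStarAlgebra B] (y : X → B) (b : B) :
    b ∈ Alg y ↔ ∃ a, ev y a = b := by
  have h1 : (b ∈ Alg y) ↔ b ∈ Algebra.adjoin ℂ (Set.range y ∪ star (Set.range y)) := by
    unfold Alg
    rw [← StarAlgebra.adjoin_toSubalgebra]
    rfl
  have h2 : Set.range y ∪ star (Set.range y) =
      Set.range (Sum.elim y (fun x => star (y x))) := by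
    rw [Set.Sum.elim_range]
    congr 1
    ext z
    simp only [Set.mem_star, Set.mem_range]
    constructor
    · rintro ⟨x, hx⟩
      exact ⟨x, by rw [hx, star_star]⟩
    · rintro ⟨x, hx⟩
      exact ⟨x, by rw [← hx, star_star]⟩
  rw [h1, h2, Algebra.adjoin_range_eq_range_freeAlgebra_lift]
  rfl

/-- naturality of the evaluation -/
lemma map_ev {X B C : Type} [CStarAlgebra B] [CStarAlgebra C] (φ : B →⋆ₐ[ℂ] C) (y : X → B)
    (a : FreeAlgebra ℂ (X ⊕ X)) : φ (ev y a) = ev (fun x => φ (y x)) a := by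
  have : (φ : B →ₐ[ℂ] C).comp (ev y) = ev (fun x => φ (y x)) := by
    unfold ev
    ext x
    rcases x with x | x
    · simp
    · simp [map_star]
  exact DFunLike.congr_fun this a

/-- The universal seminorms. -/
def Sem {X : Type} (R : ∀ (B : Type) [CStarAlgebra B], (X → B) → Prop) :
    Set (FreeAlgebra ℂ (X ⊕ X) → ℝ) :=
  {N | ∃ (B : Type) (_ : CStarAlgebra B) (_ : Nontrivial B) (y : X → B), R B y ∧
    ∀ a, N a = ‖ev y a‖}

variable {X : Type} (R : ∀ (B : Type) [CStarAlgebra B], (X → B) → Prop)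

def BB (N : Sem R) : Type := N.2.choose

instance iB (N : Sem R) : CStarAlgebra (BB R N) := N.2.choose_spec.choose

instance ntB (N : Sem R) : Nontrivial (BB R N) := N.2.choose_spec.choose_spec.choose

def yy (N : Sem R) : X → BB R N := N.2.choose_spec.choose_spec.choose_spec.choose

lemma yyR (N : Sem R) : R (BB R N) (yy R N) :=
  N.2.choose_spec.choose_spec.choose_spec.choose_spec.1

lemma yyN (N : Sem R) (a : FreeAlgebra ℂ (X ⊕ X)) : N.1 a = ‖ev (yy R N) a‖ :=
  N.2.choose_spec.choose_spec.choose_spec.choose_spec.2 a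

/-- boundedness of the generators -/
def Bdd : Prop := ∀ (B : Type) [CStarAlgebra B] (y : X → B), R B y → ∀ x, ‖y x‖ ≤ 1

/-- The relations pass to `ℓ^∞`-products. -/
def Prods : Prop := ∀ (I : Type) (B : I → Type) [∀ i, CStarAlgebra (B i)] [∀ i, Nontrivial (B i)]
  (y : ∀ i, X → B i), (∀ i, R (B i) (y i)) → ∀ z : X → lp B ∞, (∀ x i, z x i = y i x) →
    R (lp B ∞) z

/-- The relations are reflected by injective `*`-homomorphisms. -/
def Subs : Prop := ∀ (B C : Type) [CStarAlgebra B] [CStarAlgebra C] (φ : B →⋆ₐ[ℂ] C) (y : X → B),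
  Function.Injective φ → R C (fun x => φ (y x)) → R B y

/-- A universal algebra. -/
def IsUniv (A : Type) [CStarAlgebra A] (x : X → A) : Prop :=
  R A x ∧ ∀ (B : Type) [CStarAlgebra B] (y : X → B), R B y →
    ∃! φ : A →⋆ₐ[ℂ] B, ∀ i, φ (x i) = y i

abbrev PP : Type := lp (fun N : Sem R => BB R N) ∞

variable {R} in
def gen (hb : Bdd R) (x : X) : PP R :=
  ⟨fun N => yy R N x, memℓp_infty ⟨1, by
    rintro _ ⟨N, rfl⟩
    exact hb _ _ (yyR R N) x⟩⟩

variable {R}

/-- evaluation at a coordinate -/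
def coord (N : Sem R) : PP R →⋆ₐ[ℂ] BB R N where
  toFun f := f N
  map_one' := rfl
  map_mul' _ _ := rfl
  map_zero' := rfl
  map_add' _ _ := rfl
  commutes' _ := rfl
  map_star' _ := rfl

lemma coord_gen (hb : Bdd R) (N : Sem R) (x : X) : coord N (gen hb x) = yy R N x := rfl

lemma norm_le (hb : Bdd R) {B : Type} [CStarAlgebra B] [Nontrivial B] (y : X → B) (hy : R B y)
    (a : FreeAlgebra ℂ (X ⊕ X)) : ‖ev y a‖ ≤ ‖ev (gen hb) a‖ := by
  let N : Sem R := ⟨fun a => ‖ev y a‖, B, inferInstance, inferInstance, y, hy, fun _ => rfl⟩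
  have h1 : ‖ev y a‖ = ‖ev (yy R N) a‖ := yyN R N a
  have h2 : ev (yy R N) a = coord N (ev (gen hb) a) := by
    rw [map_ev]
    rfl
  rw [h1, h2]
  exact lp.norm_apply_le_norm (by simp) (ev (gen hb) a) N

/-- the universal algebra -/
abbrev UA (hb : Bdd R) : Type := CAlg (gen hb)

instance (hb : Bdd R) : CStarAlgebra (UA hb) :=
  have : IsClosed ((CAlg (gen hb) : StarSubalgebra ℂ (PP R)) : Set (PP R)) :=
    StarSubalgebra.isClosed_topologicalClosure _
  StarSubalgebra.cstarAlgebra (CAlg (gen hb))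

def ug (hb : Bdd R) (x : X) : UA hb := ⟨gen hb x, mem_CAlg _ _⟩

lemma cont {A B : Type} [CStarAlgebra A] [CStarAlgebra B] (φ : A →⋆ₐ[ℂ] B) : Continuous φ :=
  AddMonoidHomClass.continuous_of_bound φ 1 (fun a => by
    rw [one_mul]; exact NonUnitalStarAlgHom.norm_apply_le φ a)

/-- A star algebra map is determined on `CAlg` by the generators. -/
lemma ext_CAlg {B C : Type} [CStarAlgebra B] [CStarAlgebra C] {y : X → B}
    [IsClosed ((CAlg y : StarSubalgebra ℂ B) : Set B)]
    (φ ψ : CAlg y →⋆ₐ[ℂ] C) (hφ : Continuous φ) (hψ : Continuous ψ)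
    (h : ∀ x, φ ⟨y x, mem_CAlg y x⟩ = ψ ⟨y x, mem_CAlg y x⟩) : φ = ψ := by
  apply StarAlgHom.ext_topologicalClosure hφ hψ
  refine StarAlgHom.ext_adjoin ?_
  rintro ⟨_, hx⟩ ⟨x, rfl⟩
  exact h x

section prop

variable (hb : Bdd R) {B : Type} [CStarAlgebra B] [Nontrivial B] (y : X → B) (hy : R B y)

/-- the pairs of generators -/
def zz (x : X) : PP R × B := (gen hb x, y x)

def fstH : PP R × B →⋆ₐ[ℂ] PP R where
  toFun := Prod.fst
  map_one' := rfl
  map_mul' _ _ := rfl
  map_zero' := rfl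
  map_add' _ _ := rfl
  commutes' _ := rfl
  map_star' _ := rfl

def sndH : PP R × B →⋆ₐ[ℂ] B where
  toFun := Prod.snd
  map_one' := rfl
  map_mul' _ _ := rfl
  map_zero' := rfl
  map_add' _ _ := rfl
  commutes' _ := rfl
  map_star' _ := rfl

include hy in
lemma snd_le (d : PP R × B) (hd : d ∈ CAlg (zz hb y)) : ‖d.2‖ ≤ ‖d.1‖ := by
  have hcl : IsClosed {d : PP R × B | ‖d.2‖ ≤ ‖d.1‖} :=
    isClosed_le (by fun_prop) (by fun_prop)
  have hsub : ((Alg (zz hb y) : StarSubalgebra ℂ (PP R × B)) : Set (PP R × B)) ⊆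
      {d : PP R × B | ‖d.2‖ ≤ ‖d.1‖} := by
    intro d hd
    obtain ⟨a, rfl⟩ := (mem_Alg_iff _ _).1 hd
    have h1 : (ev (zz hb y) a).2 = ev y a := map_ev (sndH (R := R)) (zz hb y) a
    have h2 : (ev (zz hb y) a).1 = ev (gen hb) a := map_ev (fstH (R := R)) (zz hb y) a
    change ‖(ev (zz hb y) a).2‖ ≤ ‖(ev (zz hb y) a).1‖
    rw [h1, h2]
    exact norm_le hb y hy a
  exact closure_minimal hsub hcl hd

include hy in
lemma norm_fst (d : PP R × B) (hd : d ∈ CAlg (zz hb y)) : ‖d.1‖ = ‖d‖ := by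
  rw [Prod.norm_def, max_eq_left (snd_le hb y hy d hd)]

omit [Nontrivial B] in
lemma fst_mem (d : PP R × B) (hd : d ∈ CAlg (zz hb y)) : d.1 ∈ CAlg (gen hb) := by
  have hcl : IsClosed {d : PP R × B | d.1 ∈ CAlg (gen hb)} :=
    (StarSubalgebra.isClosed_topologicalClosure (Alg (gen hb))).preimage continuous_fst
  have hsub : ((Alg (zz hb y) : StarSubalgebra ℂ (PP R × B)) : Set (PP R × B)) ⊆
      {d : PP R × B | d.1 ∈ CAlg (gen hb)} := by
    intro d hd
    obtain ⟨a, rfl⟩ := (mem_Alg_iff _ _).1 hd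
    have h2 : (ev (zz hb y) a).1 = ev (gen hb) a := map_ev (fstH (R := R)) (zz hb y) a
    change (ev (zz hb y) a).1 ∈ CAlg (gen hb)
    rw [h2]
    exact StarSubalgebra.le_topologicalClosure _ ((mem_Alg_iff _ _).2 ⟨a, rfl⟩)
  exact closure_minimal hsub hcl hd

/-- the first projection -/
def sig : CAlg (zz hb y) →⋆ₐ[ℂ] UA hb where
  toFun d := ⟨d.1.1, fst_mem hb y d.1 d.2⟩
  map_one' := rfl
  map_mul' _ _ := rfl
  map_zero' := rfl
  map_add' _ _ := rfl
  commutes' _ := rfl
  map_star' _ := rfl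

include hy in
lemma sig_isometry : Isometry (sig hb y) := by
  apply AddMonoidHomClass.isometry_of_norm
  intro d
  exact norm_fst hb y hy d.1 d.2

instance closedCAlg {B : Type} [CStarAlgebra B] (y : X → B) :
    IsClosed ((CAlg y : StarSubalgebra ℂ B) : Set B) :=
  StarSubalgebra.isClosed_topologicalClosure _

include hy in
lemma sig_bij : Function.Bijective (sig hb y) := by
  refine ⟨(sig_isometry hb y hy).injective, ?_⟩
  have hc : IsClosed (Set.range (sig hb y)) :=
    (sig_isometry hb y hy).isClosedEmbedding.isClosed_range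
  have hd : Dense (Set.range (sig hb y)) := by
    intro u
    rw [Metric.mem_closure_iff]
    intro ε hε
    have hu : u.1 ∈ closure ((Alg (gen hb) : StarSubalgebra ℂ (PP R)) : Set (PP R)) := u.2
    obtain ⟨v, hv, huv⟩ := Metric.mem_closure_iff.1 hu ε hε
    obtain ⟨a, rfl⟩ := (mem_Alg_iff _ _).1 hv
    refine ⟨sig hb y ⟨ev (zz hb y) a, StarSubalgebra.le_topologicalClosure _
      ((mem_Alg_iff _ _).2 ⟨a, rfl⟩)⟩, ⟨_, rfl⟩, ?_⟩
    have h2 : (ev (zz hb y) a).1 = ev (gen hb) a := map_ev (fstH (R := R)) (zz hb y) a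
    rw [Subtype.dist_eq]
    change dist u.1 (ev (zz hb y) a).1 < ε
    rw [h2]
    exact huv
  have : Set.range (sig hb y) = Set.univ := by
    rw [← hc.closure_eq]
    exact hd.closure_eq
  exact Set.range_eq_univ.1 this

/-- the universal map -/
def umap : UA hb →⋆ₐ[ℂ] B :=
  ((sndH (R := R)).comp (CAlg (zz hb y)).subtype).comp
    (StarAlgEquiv.ofBijective (sig hb y) (sig_bij hb y hy)).symm.toStarAlgHom

lemma umap_gen (x : X) : umap hb y hy (ug hb x) = y x := by
  have h1 : (StarAlgEquiv.ofBijective (sig hb y) (sig_bij hb y hy)).symm (ug hb x) =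
      ⟨zz hb y x, mem_CAlg _ _⟩ := by
    rw [StarAlgEquiv.symm_apply_eq]
    rfl
  change (((StarAlgEquiv.ofBijective (sig hb y) (sig_bij hb y hy)).symm (ug hb x)).1).2 = y x
  rw [h1]
  rfl

end prop

theorem univ_UA (hb : Bdd R) (hp : Prods R) (hs : Subs R) : IsUniv R (UA hb) (ug hb) := by
  constructor
  · refine hs (UA hb) (PP R) (CAlg (gen hb)).subtype (ug hb) Subtype.val_injective ?_
    refine hp (Sem R) (BB R) (yy R) (yyR R) _ ?_
    intro x i
    rfl
  · intro B _ y hy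
    rcases subsingleton_or_nontrivial B with hB | hB
    · refine ⟨⟨⟨⟨⟨⟨fun _ => 0, Subsingleton.elim _ _⟩, fun _ _ => Subsingleton.elim _ _⟩,
        Subsingleton.elim _ _, fun _ _ => Subsingleton.elim _ _⟩, fun _ => Subsingleton.elim _ _⟩,
        fun _ => Subsingleton.elim _ _⟩, fun _ => Subsingleton.elim _ _, ?_⟩
      intro ψ _
      ext a
      exact Subsingleton.elim _ _
    · refine ⟨umap hb y hy, umap_gen hb y hy, ?_⟩
      intro ψ hψ
      refine ext_CAlg ψ (umap hb y hy) (cont (A := UA hb) ψ) (cont (A := UA hb) _) ?_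
      intro x
      exact (hψ x).trans (umap_gen hb y hy x).symm

end

end Pool.Agent.TH41.Univ
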